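import Pool.Agent.P.MP_69a01b_lc.Pos
import Pool.Agent.P.MP_69a01b_lc.Example

/-! The degrees of completeness that a Boolean algebra can have when its `m`-completion is not
the smallest `m`-extension. -/

namespace Pool.Agent.Results.MP_69a01b_lc.CompleteThreshold

open Cardinal Pool.Agent.P.MP_69a01b_lc

universe u

theorem result (m n : Cardinal.{u}) (hm : ℵ₀ ≤ m) :
    (∃ (A : Type u) (_ : BooleanAlgebra A),
      (∀ S : Set A, #S < n → ∃ a, IsLUB S a) ∧ Fails m A) ↔ n < m ∨ (n = m ∧ m.IsRegular) := by
  have key : ∀ r : Cardinal.{u}, r.IsRegular → n ≤ r → r ≤ m →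
      ∃ (A : Type u) (_ : BooleanAlgebra A),
        (∀ S : Set A, #S < n → ∃ a, IsLUB S a) ∧ Fails m A := fun r hr h1 h2 =>
    ⟨fld r.out (Order.succ m).out hr.aleph0_le, inferInstance,
      fun S hS => fld_complete hr S (hS.trans_le h1),
      fails_fld (mk_out _) h2 (by rw [mk_out]; exact Order.lt_succ m)⟩
  constructor
  · rintro ⟨A, _, h1, h2⟩
    rcases lt_trichotomy n m with h | rfl | h
    · exact Or.inl h
    · refine Or.inr ⟨rfl, ?_⟩
      by_contra hs
      exact not_fails_of_complete hm (complete_of_singular hm hs h1) h2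
    · exact absurd h2 (not_fails_of_complete hm fun S hS => h1 S (hS.trans_lt h))
  · rintro (h | ⟨rfl, h⟩)
    · rcases le_total n ℵ₀ with h0 | h0
      · exact key ℵ₀ isRegular_aleph0 h0 hm
      · exact key _ (isRegular_succ h0) (Order.le_succ n) (Order.succ_le_of_lt h)
    · exact key n h le_rfl le_rfl

end Pool.Agent.Results.MP_69a01b_lc.CompleteThreshold
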