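import Pool.Agent.P.MP_69a01b_lc.Pos
import Pool.Agent.P.MP_69a01b_lc.Example

/-! The least size, and the least bound on disjoint families, of a Boolean algebra whose
`m`-completion is not the smallest `m`-extension is exactly the successor of `m`. -/

namespace Pool.Agent.Results.MP_69a01b_lc.SizeThreshold

open Cardinal Pool.Agent.P.MP_69a01b_lc

universe u

theorem result (m κ : Cardinal.{u}) (hm : ℵ₀ ≤ m) : List.TFAE
    [m < κ,
     ∃ (A : Type u) (_ : BooleanAlgebra A), #A ≤ κ ∧ Fails m A,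
     ∃ (A : Type u) (_ : BooleanAlgebra A),
      (∀ S : Set A, ⊥ ∉ S → S.Pairwise Disjoint → #S ≤ κ) ∧ Fails m A] := by
  tfae_have 1 → 2 := fun h => by
    have hL : #(ℵ₀ : Cardinal.{u}).out = ℵ₀ := mk_out _
    have hW : #(Order.succ m).out = Order.succ m := mk_out _
    refine ⟨fld (ℵ₀ : Cardinal.{u}).out (Order.succ m).out (le_refl ℵ₀), inferInstance, ?_,
      fails_fld hL hm (by rw [hW]; exact Order.lt_succ m)⟩
    refine (mk_fld_le hL (by rw [hW]; exact hm.trans (Order.le_succ m))).trans ?_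
    rw [hW]
    exact Order.succ_le_of_lt h
  tfae_have 2 → 3 := fun ⟨A, i, h1, h2⟩ => ⟨A, i, fun S _ _ => (mk_set_le S).trans h1, h2⟩
  tfae_have 3 → 1 := fun ⟨A, i, h1, h2⟩ => by
    by_contra h
    exact not_fails_of_cc hm (fun S a b => (h1 S a b).trans (not_lt.1 h)) h2
  tfae_finish

end Pool.Agent.Results.MP_69a01b_lc.SizeThreshold
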